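import Mathlib

/-!
# Some power of the real line is not base resolvable

We construct, in ZFC, a set `K` of cardinality `ℶ_ω` and a base of `ℝ^K` that cannot be partitioned
into two bases.

The set `K` of coordinates is the increasing union of sets `L 0 ⊆ L 1 ⊆ ...` (coordinates of level
at most `n`): `L 0 = 2^ω × A` with `A` uncountable, and the coordinates of level `n + 1` are the
finite subsets `v` of `L n` (private coordinates) and the functions `f : D n → ℕ`, where `D n` is
the set of all 2-colourings of the finite subsets of `L n`.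

A sequence `y` of colourings `y n ∈ D n` determines a point `p y` of `ℝ^K`.  Its value at the
coordinate `f : D n → ℕ` is `f (y n)`; its value at the private coordinate of `v ⊆ L n` is `1` if `v`
is accepted by `y` and `0` otherwise; its coordinates of level `0` are `0`.  Acceptance: the
colouring `y n` determines a colour `ii y n`, which is `false` if the sets of colour `false` are
cofinal among the finite subsets of `L n` (then exactly the sets of colour `false` are accepted);
otherwise it is `true`, there is a finite set `uu n (y n)` all of whose finite supersets have colour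
`true`, and accepted are those supersets that contain no new coordinate of the form `(τ, a)` of level
`0` for which `τ` is infinitely often `false` and agrees with the colours `ii y j`, `j ≤ n`.

The set of all points `p y` is closed: a point of the closure defines for each `n` a countably
complete ultrafilter on `D n`, and such ultrafilters are principal since `D n` is obtained from small
sets by finitely many power set operations.

The base consists of all open sets that contain no point `p y` and of the boxes `Main y n v`,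
which depend on `y 0, ..., y (n - 1)` only and contain `p y'` iff `y'` agrees with `y` below `n` and
accepts `v` at stage `n`.  Given a colouring of the base there is a play `y` for which `y n v` is the
colour of `Main y n v`, and one of the two colours is not a base at `p y`.
-/

set_option autoImplicit false

open TopologicalSpace Set Filter Topology

namespace Pool.Agent.Results.MP_155eb7_gt.PowersOfTheLine

/-- `X` has no isolated points. -/
def DenseInItself (X : Type) [TopologicalSpace X] : Prop :=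
  ∀ x : X, ¬ IsOpen ({x} : Set X)

/-- Every base of `X` is the union of two disjoint families both of which are bases of `X`. -/
def BaseResolvable (X : Type) [TopologicalSpace X] : Prop :=
  ∀ B : Set (Set X), IsTopologicalBasis B →
    ∃ B₀ B₁ : Set (Set X), B₀ ∪ B₁ = B ∧ B₀ ∩ B₁ = ∅ ∧
      IsTopologicalBasis B₀ ∧ IsTopologicalBasis B₁

/-! ### Sets without countably complete nonprincipal ultrafilters -/

/-- countable completeness of an ultrafilter -/
def CC {X : Type} (U : Ultrafilter X) : Prop :=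
  ∀ S : ℕ → Set X, (∀ i, S i ∈ U) → (⋂ i, S i) ∈ U

/-- every countably complete ultrafilter on `X` is principal -/
def Good (X : Type) : Prop := ∀ U : Ultrafilter X, CC U → ∃ x, {x} ∈ U

theorem CC.map {X Y : Type} {U : Ultrafilter X} (h : CC U) (g : X → Y) : CC (U.map g) := by
  intro S hS
  rw [Ultrafilter.mem_map, preimage_iInter]
  exact h _ fun i => by simpa [Ultrafilter.mem_map] using hS i

theorem good_nat : Good ℕ := by
  intro U hU
  by_contra h
  push Not at h
  have h1 : ∀ i, ({i}ᶜ : Set ℕ) ∈ U := fun i => Ultrafilter.compl_mem_iff_notMem.2 (h i)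
  have h2 := hU _ h1
  have h3 : (⋂ i : ℕ, ({i}ᶜ : Set ℕ)) = ∅ := by
    ext x; simp
  rw [h3] at h2
  exact U.empty_notMem h2

theorem Good.inj {X Y : Type} (h : Good Y) (f : X → Y) (hf : Function.Injective f) : Good X := by
  intro U hU
  obtain ⟨y, hy⟩ := h _ (hU.map f)
  rw [Ultrafilter.mem_map] at hy
  obtain ⟨x, hx⟩ := U.nonempty_of_mem hy
  refine ⟨x, ?_⟩
  convert hy using 1
  ext z
  simp only [mem_singleton_iff, mem_preimage] at hx ⊢
  rw [← hx]
  exact hf.eq_iff.symm

theorem Good.pi {X : Type} (h : Good X) : Good (X → Bool) := by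
  classical
  intro U hU
  have he : ∀ x, ∃ b : Bool, {d : X → Bool | d x = b} ∈ U := by
    intro x
    by_cases hx : {d : X → Bool | d x = true} ∈ U
    · exact ⟨true, hx⟩
    · refine ⟨false, ?_⟩
      rw [← Ultrafilter.compl_mem_iff_notMem] at hx
      convert hx using 1
      ext d; simp
  choose e he using he
  refine ⟨e, ?_⟩
  by_contra hcon
  have hc := Ultrafilter.compl_mem_iff_notMem.2 hcon
  obtain ⟨d0, hd0⟩ := U.nonempty_of_mem hc
  have hx0 : ∃ x, d0 x ≠ e x := by
    by_contra h'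
    push Not at h'
    exact hd0 (funext h')
  obtain ⟨x0, -⟩ := hx0
  let g : (X → Bool) → X := fun d => if h : ∃ x, d x ≠ e x then h.choose else x0
  obtain ⟨x1, hx1⟩ := h _ (hU.map g)
  rw [Ultrafilter.mem_map] at hx1
  obtain ⟨d, ⟨hd1, hd2⟩, hd3⟩ := U.nonempty_of_mem (inter_mem (inter_mem hx1 hc) (he x1))
  have hd4 : ∃ x, d x ≠ e x := by
    by_contra h'
    push Not at h'
    exact hd2 (funext h')
  have hg : g d = hd4.choose := dif_pos hd4
  have hd5 : g d = x1 := hd1
  have := hd4.choose_spec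
  rw [← hg, hd5] at this
  exact this hd3

theorem Good.prod {X Y : Type} (hX : Good X) (hY : Good Y) : Good (X × Y) := by
  intro U hU
  obtain ⟨x, hx⟩ := hX _ (hU.map Prod.fst)
  obtain ⟨y, hy⟩ := hY _ (hU.map Prod.snd)
  rw [Ultrafilter.mem_map] at hx hy
  refine ⟨(x, y), ?_⟩
  filter_upwards [hx, hy] with z h1 h2
  exact Prod.ext h1 h2

theorem Good.sum {X Y : Type} (hX : Good X) (hY : Good Y) : Good (X ⊕ Y) := by
  intro U hU
  by_cases h : range (Sum.inl : X → X ⊕ Y) ∈ U
  · obtain ⟨_, x0, -⟩ := U.nonempty_of_mem h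
    obtain ⟨x, hx⟩ := hX _ (hU.map (Sum.elim id fun _ => x0))
    rw [Ultrafilter.mem_map] at hx
    refine ⟨Sum.inl x, ?_⟩
    filter_upwards [hx, h] with z h1 h2
    obtain ⟨x', rfl⟩ := h2
    simpa using h1
  · rw [← Ultrafilter.compl_mem_iff_notMem, compl_range_inl] at h
    obtain ⟨_, y0, -⟩ := U.nonempty_of_mem h
    obtain ⟨y, hy⟩ := hY _ (hU.map (Sum.elim (fun _ => y0) id))
    rw [Ultrafilter.mem_map] at hy
    refine ⟨Sum.inr y, ?_⟩
    filter_upwards [hy, h] with z h1 h2
    obtain ⟨y', rfl⟩ := h2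
    simpa using h1

theorem Good.finset {X : Type} (hX : Good X) : Good (Finset X) := by
  classical
  refine hX.pi.inj (fun v x => decide (x ∈ v)) ?_
  intro v w h
  ext x
  have := congrFun h x
  simpa using this

theorem Good.fnat {X : Type} (hX : Good X) : Good (X → ℕ) := by
  classical
  refine (hX.prod good_nat).pi.inj (fun f x => decide (f x.1 = x.2)) ?_
  intro f g h
  ext x
  have := congrFun h (x, f x)
  simp only [decide_true] at this
  exact (of_decide_eq_true this.symm).symm

/-! ### Coordinates -/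

variable (A : Type)

/-- the coordinates of level at most `n` -/
def L : ℕ → Type
  | 0 => (ℕ → Bool) × A
  | n + 1 => L n ⊕ (Finset (L n) ⊕ ((Finset (L n) → Bool) → ℕ))

/-- the colourings of the finite sets of coordinates of level at most `n` -/
abbrev D (n : ℕ) : Type := Finset (L A n) → Bool

/-- all coordinates -/
abbrev K : Type := ((ℕ → Bool) × A) ⊕ (Σ n, (Finset (L A n) ⊕ (D A n → ℕ)))

variable {A}

/-- the coordinates of level at most `n` as elements of `K` -/
def emb : (n : ℕ) → L A n → K A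
  | 0, c => Sum.inl c
  | n + 1, c => Sum.elim (emb n) (fun x => Sum.inr ⟨n, x⟩) c

/-- the level of a coordinate -/
def lev : K A → ℕ
  | Sum.inl _ => 0
  | Sum.inr x => x.1 + 1

theorem lev_emb (n : ℕ) : ∀ c : L A n, lev (emb n c) ≤ n := by
  induction n with
  | zero => intro c; exact le_rfl
  | succ n ih =>
    intro c
    rcases c with c | c
    · exact (ih c).trans (Nat.le_succ n)
    · exact le_rfl

theorem exists_emb (n : ℕ) : ∀ k : K A, lev k ≤ n → ∃ c : L A n, emb n c = k := by
  induction n with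
  | zero =>
    rintro (k | k) hk
    · exact ⟨k, rfl⟩
    · simp [lev] at hk
  | succ n ih =>
    intro k hk
    rcases Nat.lt_or_ge (lev k) (n + 1) with h | h
    · obtain ⟨c, hc⟩ := ih k (Nat.lt_succ_iff.1 h)
      exact ⟨Sum.inl c, hc⟩
    · rcases k with k | ⟨m, x⟩
      · simp [lev] at h
      · have hm : m = n := by
          have h1 : lev (Sum.inr ⟨m, x⟩ : K A) = m + 1 := rfl
          omega
        subst hm
        exact ⟨Sum.inr x, rfl⟩

theorem good_L (hA : Good A) (n : ℕ) : Good (L A n) := by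
  induction n with
  | zero => exact good_nat.pi.prod hA
  | succ n ih => exact ih.sum (ih.finset.sum ih.finset.pi.fnat)

variable (A) in
/-- the sequences of colourings -/
abbrev Y : Type := (n : ℕ) → D A n

/-- the colour `false` is cofinal -/
def Cof (n : ℕ) (c : D A n) : Prop := ∀ u, ∃ v, u ⊆ v ∧ c v = false

open Classical in
/-- the colour chosen at stage `n` -/
noncomputable def ii (y : Y A) (n : ℕ) : Bool := !decide (Cof n (y n))

theorem exists_u (n : ℕ) (c : D A n) : ∃ u, ¬ Cof n c → ∀ v, u ⊆ v → c v = true := by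
  by_cases h : Cof n c
  · exact ⟨∅, fun h' => absurd h h'⟩
  · have h' := h
    unfold Cof at h'
    push Not at h'
    obtain ⟨u, h2⟩ := h'
    refine ⟨u, fun _ v huv => ?_⟩
    simpa using h2 v huv

/-- if `false` is not cofinal, all supersets of this set have colour `true` -/
noncomputable def uu (n : ℕ) (c : D A n) : Finset (L A n) := (exists_u n c).choose
theorem uu_spec {n : ℕ} {c : D A n} (h : ¬ Cof n c) {v : Finset (L A n)}
    (huv : uu n c ⊆ v) : c v = true := (exists_u n c).choose_spec h v huv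

/-- reserved coordinates -/
def R (y : Y A) (n : ℕ) : Set (K A) :=
  {k | ∃ τ a, k = Sum.inl (τ, a) ∧ (∀ m, ∃ j ≥ m, τ j = false) ∧ ∀ j ≤ n, τ j = ii y j}

/-- accepted finite sets at stage `n` -/
def V (y : Y A) (n : ℕ) : Set (Finset (L A n)) :=
  {v | (Cof n (y n) → y n v = false) ∧
    (¬ Cof n (y n) → uu n (y n) ⊆ v ∧
      ∀ c ∈ v, emb n c ∈ R y n → ∃ c' ∈ uu n (y n), emb n c' = emb n c)}

open Classical in
/-- the point determined by `y` -/
noncomputable def p (y : Y A) : K A → ℝ
  | Sum.inl _ => 0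
  | Sum.inr ⟨n, Sum.inl v⟩ => if v ∈ V y n then 1 else 0
  | Sum.inr ⟨n, Sum.inr f⟩ => f (y n)

open Classical in
/-- the indicator function of a colouring -/
noncomputable def δ {n : ℕ} (d : D A n) : D A n → ℕ := fun d' => if d' = d then 1 else 0

/-- the main members of the base -/
def Main (y : Y A) (n : ℕ) (v : Finset (L A n)) : Set (K A → ℝ) :=
  {q | (∀ j < n, |q (Sum.inr ⟨j, Sum.inr (δ (y j))⟩) - 1| < 1 / 2) ∧
    (∀ c ∈ v, |q (emb n c) - p y (emb n c)| < 1 / ((n : ℝ) + 1)) ∧
    |q (Sum.inr ⟨n, Sum.inl v⟩) - 1| < 1 / 2}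

variable (A) in
/-- the base -/
def Bs : Set (Set (K A → ℝ)) :=
  {b | (∃ y n v, b = Main y n v) ∨ (IsOpen b ∧ ∀ y, p y ∉ b)}

theorem ii_congr {y y' : Y A} {n : ℕ} (h : y n = y' n) : ii y n = ii y' n := by
  unfold ii; rw [h]

theorem R_congr {y y' : Y A} {n : ℕ} (h : ∀ j ≤ n, y j = y' j) : R y n = R y' n := by
  ext x
  unfold R
  constructor
  · rintro ⟨τ, a, h1, h2, h3⟩
    exact ⟨τ, a, h1, h2, fun j hj => by rw [h3 j hj]; exact ii_congr (h j hj)⟩
  · rintro ⟨τ, a, h1, h2, h3⟩
    exact ⟨τ, a, h1, h2, fun j hj => by rw [h3 j hj]; exact (ii_congr (h j hj)).symm⟩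

theorem V_congr {y y' : Y A} {n : ℕ} (h : ∀ j ≤ n, y j = y' j) : V y n = V y' n := by
  unfold V
  rw [h n le_rfl, R_congr h]

theorem p_congr {y y' : Y A} {n : ℕ} (h : ∀ j < n, y j = y' j) (k : K A) (hk : lev k ≤ n) :
    p y k = p y' k := by
  rcases k with k | ⟨m, v | f⟩
  · rfl
  · have h1 : m < n := hk
    have h2 : V y m = V y' m := V_congr (fun j hj => h j (by omega))
    have h3 : v ∈ V y m ↔ v ∈ V y' m := by rw [h2]
    by_cases h4 : v ∈ V y m
    · simp only [p, if_pos h4, if_pos (h3.1 h4)]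
    · simp only [p, if_neg h4, if_neg fun h5 => h4 (h3.2 h5)]
  · have h1 : m < n := hk
    simp only [p, h m h1]

theorem p_emb_congr {y y' : Y A} {n : ℕ} (h : ∀ j < n, y j = y' j) (c : L A n) :
    p y (emb n c) = p y' (emb n c) := p_congr h _ (lev_emb n c)

theorem Main_congr {y y' : Y A} {n : ℕ} (h : ∀ j < n, y j = y' j) (v : Finset (L A n)) :
    Main y n v = Main y' n v := by
  ext q
  unfold Main
  constructor
  · rintro ⟨h1, h2, h3⟩
    exact ⟨fun j hj => by rw [← h j hj]; exact h1 j hj,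
      fun x hx => by rw [← p_emb_congr h]; exact h2 x hx, h3⟩
  · rintro ⟨h1, h2, h3⟩
    exact ⟨fun j hj => by rw [h j hj]; exact h1 j hj,
      fun x hx => by rw [p_emb_congr h]; exact h2 x hx, h3⟩

theorem p_δ (y : Y A) (j : ℕ) : p y (Sum.inr ⟨j, Sum.inr (δ (y j))⟩) = 1 := by
  simp [p, δ]

theorem eq_of_p_δ {y y' : Y A} {j : ℕ}
    (h : |p y' (Sum.inr ⟨j, Sum.inr (δ (y j))⟩) - 1| < 1 / 2) : y' j = y j := by
  by_contra hne
  simp only [p, δ, if_neg hne, Nat.cast_zero, zero_sub, abs_neg, abs_one] at h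
  norm_num at h

theorem mem_V_of_p {y : Y A} {n : ℕ} {v : Finset (L A n)}
    (h : |p y (Sum.inr ⟨n, Sum.inl v⟩) - 1| < 1 / 2) : v ∈ V y n := by
  by_contra hne
  simp only [p, if_neg hne, zero_sub, abs_neg, abs_one] at h
  norm_num at h

theorem p_mem_Main {y : Y A} {n : ℕ} {v : Finset (L A n)} (hv : v ∈ V y n) :
    p y ∈ Main y n v := by
  refine ⟨fun j _ => ?_, fun c _ => ?_, ?_⟩
  · rw [p_δ]; norm_num
  · rw [sub_self, abs_zero]; positivity
  · simp only [p, if_pos hv]; norm_num

theorem isOpen_coord (k : K A) (t ε : ℝ) : IsOpen {q : K A → ℝ | |q k - t| < ε} :=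
  isOpen_lt (by fun_prop) continuous_const

theorem isOpen_Main (y : Y A) (n : ℕ) (v : Finset (L A n)) : IsOpen (Main y n v) := by
  have : Main y n v = (⋂ j ∈ Finset.range n,
      {q : K A → ℝ | |q (Sum.inr ⟨j, Sum.inr (δ (y j))⟩) - 1| < 1 / 2}) ∩
      ((⋂ c ∈ v, {q : K A → ℝ | |q (emb n c) - p y (emb n c)| < 1 / ((n : ℝ) + 1)}) ∩
        {q : K A → ℝ | |q (Sum.inr ⟨n, Sum.inl v⟩) - 1| < 1 / 2}) := by
    ext q; simp [Main]
  rw [this]
  refine IsOpen.inter ?_ (IsOpen.inter ?_ ?_)
  · exact isOpen_biInter_finset fun j _ => isOpen_coord _ _ _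
  · exact isOpen_biInter_finset fun c _ => isOpen_coord _ _ _
  · exact isOpen_coord _ _ _

theorem isOpen_Bs {b : Set (K A → ℝ)} (hb : b ∈ Bs A) : IsOpen b := by
  rcases hb with ⟨y, n, v, rfl⟩ | ⟨h, _⟩
  · exact isOpen_Main y n v
  · exact h

/-- basic neighbourhoods -/
theorem exists_basic {O : Set (K A → ℝ)} (hO : IsOpen O) {x : K A → ℝ} (hx : x ∈ O) :
    ∃ (F : Finset (K A)) (ε : ℝ), 0 < ε ∧ ∀ q : K A → ℝ, (∀ k ∈ F, |q k - x k| < ε) → q ∈ O := by
  classical
  obtain ⟨F, u, hu, hFU⟩ := isOpen_pi_iff.1 hO x hx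
  have h1 : ∀ k ∈ F, ∃ ε > 0, ∀ t, |t - x k| < ε → t ∈ u k := by
    intro k hk
    obtain ⟨ε, hε, h⟩ := Metric.isOpen_iff.1 (hu k hk).1 (x k) (hu k hk).2
    exact ⟨ε, hε, fun t ht => h (by simpa [Real.dist_eq] using ht)⟩
  choose! e he1 he2 using h1
  by_cases hF : F.Nonempty
  · refine ⟨F, F.inf' hF e, (Finset.lt_inf'_iff hF).2 fun k hk => he1 k hk, fun q hq => hFU ?_⟩
    intro k hk
    have hk' : k ∈ F := by simpa using hk
    exact he2 k hk' _ ((hq k hk').trans_le (Finset.inf'_le _ hk'))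
  · refine ⟨F, 1, one_pos, fun q _ => hFU ?_⟩
    intro k hk
    exact absurd ⟨k, by simpa using hk⟩ hF

theorem R_anti {y : Y A} {m n : ℕ} (h : m ≤ n) : R y n ⊆ R y m := by
  rintro x ⟨τ, a, h1, h2, h3⟩
  exact ⟨τ, a, h1, h2, fun j hj => h3 j (hj.trans h)⟩

theorem exists_lift {n : ℕ} {F : Finset (K A)} (hF : ∀ k ∈ F, lev k ≤ n) :
    ∃ F' : Finset (L A n), (∀ k ∈ F, ∃ c ∈ F', emb n c = k) ∧ ∀ c ∈ F', emb n c ∈ F := by
  classical
  choose g hg using fun k : F => exists_emb n k.1 (hF k.1 k.2)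
  refine ⟨Finset.univ.image g, fun k hk => ⟨g ⟨k, hk⟩, ?_, hg ⟨k, hk⟩⟩, fun c hc => ?_⟩
  · exact Finset.mem_image_of_mem _ (Finset.mem_univ _)
  · obtain ⟨k, -, rfl⟩ := Finset.mem_image.1 hc
    rw [hg k]; exact k.2

theorem served (y : Y A) (F : Finset (K A)) (m : ℕ) :
    ∃ n ≥ m, ∃ v ∈ V y n, ∀ k ∈ F, ∃ c ∈ v, emb n c = k := by
  classical
  set N := max m (F.sup lev) with hN
  have hF : ∀ n ≥ N, ∀ k ∈ F, lev k ≤ n := fun n hn k hk =>
    (Finset.le_sup (f := lev) hk).trans ((le_max_right _ _).trans hn)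
  by_cases hA : ∀ n, ∃ j ≥ n, Cof j (y j)
  · obtain ⟨n, hn, hc⟩ := hA N
    obtain ⟨F', hF', -⟩ := exists_lift (hF n hn)
    obtain ⟨v, hFv, hcv⟩ := hc F'
    refine ⟨n, (le_max_left _ _).trans hn, v, ⟨fun _ => hcv, fun h => absurd hc h⟩, ?_⟩
    intro k hk
    obtain ⟨c, hc1, hc2⟩ := hF' k hk
    exact ⟨c, hFv hc1, hc2⟩
  · push Not at hA
    obtain ⟨n0, h0⟩ := hA
    have key : ∀ k : K A, ∃ n, k ∉ R y n := by
      intro k
      by_contra hcon
      push Not at hcon
      obtain ⟨τ, a, hx, hτ, -⟩ := hcon 0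
      have h1 : ∀ j, τ j = ii y j := by
        intro j
        obtain ⟨τ', a', hx', -, h3⟩ := hcon j
        have h4 := Sum.inl_injective (hx.symm.trans hx')
        rw [(Prod.mk.inj h4).1]
        exact h3 j le_rfl
      obtain ⟨j, hj, hj'⟩ := hτ n0
      rw [h1 j] at hj'
      simp [ii] at hj'
      exact h0 j hj hj'
    choose g hg using key
    set n := max (max N n0) (F.sup g) with hn
    have hnN : N ≤ n := (le_max_left _ _).trans (le_max_left _ _)
    have hn0 : n0 ≤ n := (le_max_right _ _).trans (le_max_left _ _)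
    obtain ⟨F', hF', hF''⟩ := exists_lift (hF n hnN)
    refine ⟨n, (le_max_left _ _).trans hnN, F' ∪ uu n (y n), ⟨?_, ?_⟩, ?_⟩
    · intro h
      exact absurd h (h0 n hn0)
    · intro _
      refine ⟨Finset.subset_union_right, fun x hx hxR => ?_⟩
      rcases Finset.mem_union.1 hx with hx | hx
      · exact absurd (R_anti ((Finset.le_sup (f := g) (hF'' x hx)).trans
          (le_max_right _ _)) hxR) (hg _)
      · exact ⟨x, hx, rfl⟩
    · intro k hk
      obtain ⟨c, hc1, hc2⟩ := hF' k hk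
      exact ⟨c, Finset.mem_union_left _ hc1, hc2⟩

/-- the set of the points `p y` is closed -/
theorem isClosed_graph (hA : Good A) : IsClosed (range (p : Y A → K A → ℝ)) := by
  classical
  rw [isClosed_iff_clusterPt]
  intro q hq
  have hne : NeBot (comap (p : Y A → K A → ℝ) (𝓝 q)) := by
    rw [comap_neBot_iff]
    intro t ht
    obtain ⟨_, h1, y, rfl⟩ := clusterPt_principal_iff.1 hq t ht
    exact ⟨y, h1⟩
  set W : Ultrafilter (Y A) := Ultrafilter.of (comap (p : Y A → K A → ℝ) (𝓝 q)) with hW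
  have hT : Tendsto (p : Y A → K A → ℝ) W (𝓝 q) :=
    tendsto_iff_comap.2 (Ultrafilter.of_le _)
  have hTk : ∀ k, Tendsto (fun y => p y k) W (𝓝 (q k)) := fun k => (tendsto_pi_nhds.1 hT) k
  -- a function to the natural numbers is constant on a member of the ultrafilter
  have hconst : ∀ n (f : D A n → ℕ), ∃ m, {y : Y A | f (y n) = m} ∈ W := by
    intro n f
    have h1 := hTk (Sum.inr ⟨n, Sum.inr f⟩)
    have h2 : ∀ᶠ y in (W : Filter (Y A)),
        |((f (y n) : ℕ) : ℝ) - q (Sum.inr ⟨n, Sum.inr f⟩)| < 1 / 2 := by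
      have h3 := (Metric.tendsto_nhds.1 h1) (1 / 2) (by norm_num)
      filter_upwards [h3] with y hy
      simpa [Real.dist_eq, p] using hy
    obtain ⟨y0, hy0⟩ := h2.exists
    refine ⟨f (y0 n), ?_⟩
    filter_upwards [h2] with y hy
    have h4 : |((f (y n) : ℕ) : ℝ) - (f (y0 n) : ℕ)| < 1 := by
      rw [abs_lt] at *
      constructor <;> linarith [hy.1, hy.2, hy0.1, hy0.2]
    have h5 : |((f (y n) : ℕ) : ℤ) - (f (y0 n) : ℕ)| < 1 := by
      exact_mod_cast h4
    have h6 := Int.abs_lt_one_iff.1 h5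
    show f (y n) = f (y0 n)
    omega
  have hcc : ∀ n, CC (W.map fun y => y n) := by
    intro n S hS
    by_contra hcon
    let f : D A n → ℕ := fun d => if h : ∃ i, d ∉ S i then Nat.find h + 1 else 0
    obtain ⟨m, hm⟩ := hconst n f
    rcases m with _ | i
    · apply hcon
      rw [Ultrafilter.mem_map]
      filter_upwards [hm] with y hy
      rw [mem_preimage, mem_iInter]
      intro i
      by_contra hi
      have : f (y n) = Nat.find (⟨i, hi⟩ : ∃ i, y n ∉ S i) + 1 := dif_pos _
      have hy' : f (y n) = 0 := hy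
      omega
    · have h1 : {y : Y A | y n ∈ S i} ∈ W := by
        have := hS i
        rwa [Ultrafilter.mem_map] at this
      obtain ⟨y, hy1, hy2⟩ := W.nonempty_of_mem (inter_mem hm h1)
      by_cases h : ∃ i, y n ∉ S i
      · have h3 : f (y n) = Nat.find h + 1 := dif_pos h
        have hy' : f (y n) = i + 1 := hy1
        have h4 := Nat.find_spec h
        rw [show Nat.find h = i by omega] at h4
        exact h4 hy2
      · have h3 : f (y n) = 0 := dif_neg h
        have hy' : f (y n) = i + 1 := hy1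
        omega
  have hpr : ∀ n, ∃ d : D A n, {y : Y A | y n = d} ∈ W := by
    intro n
    obtain ⟨d, hd⟩ := (good_L hA n).finset.pi _ (hcc n)
    rw [Ultrafilter.mem_map] at hd
    exact ⟨d, hd⟩
  choose d hd using hpr
  refine ⟨d, ?_⟩
  funext k
  have h1 : {y : Y A | ∀ j < lev k, y j = d j} ∈ W := by
    have : {y : Y A | ∀ j < lev k, y j = d j} = ⋂ j ∈ Finset.range (lev k), {y : Y A | y j = d j} := by
      ext y; simp
    rw [this]
    exact (Filter.biInter_finset_mem _).2 fun j _ => hd j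
  have h2 : Tendsto (fun y => p y k) W (𝓝 (p d k)) := by
    refine Tendsto.congr' ?_ tendsto_const_nhds
    filter_upwards [h1] with y hy
    exact (p_congr hy k le_rfl).symm
  exact tendsto_nhds_unique h2 (hTk k)

theorem isBasis_Bs (hA : Good A) : IsTopologicalBasis (Bs A) := by
  refine isTopologicalBasis_of_isOpen_of_nhds (fun b hb => isOpen_Bs hb) ?_
  intro x O hx hO
  by_cases hk : x ∈ range (p : Y A → K A → ℝ)
  · obtain ⟨y, rfl⟩ := hk
    obtain ⟨F, ε, hε, hF⟩ := exists_basic hO hx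
    obtain ⟨m, hm⟩ := exists_nat_one_div_lt hε
    obtain ⟨n, hn, v, hv, hFv⟩ := served y F m
    refine ⟨Main y n v, Or.inl ⟨y, n, v, rfl⟩, p_mem_Main hv, ?_⟩
    rintro q ⟨-, h2, -⟩
    refine hF q fun k hk => ?_
    obtain ⟨c, hc, rfl⟩ := hFv k hk
    refine (h2 c hc).trans (lt_of_le_of_lt ?_ hm)
    apply one_div_le_one_div_of_le (by positivity)
    have : (m : ℝ) ≤ n := by exact_mod_cast hn
    linarith
  · refine ⟨O ∩ (range (p : Y A → K A → ℝ))ᶜ,
      Or.inr ⟨hO.inter (isClosed_graph hA).isOpen_compl, ?_⟩, ⟨hx, hk⟩, inter_subset_left⟩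
    rintro y' ⟨-, h⟩
    exact h ⟨y', rfl⟩

theorem exists_play (c : Set (K A → ℝ) → Bool) :
    ∃ y : Y A, ∀ n v, y n v = c (Main y n v) := by
  classical
  let ys : ℕ → Y A := fun n => Nat.rec (fun _ _ => false)
    (fun n y => Function.update y n (fun v => c (Main y n v))) n
  have hys : ∀ n, ys (n + 1) = Function.update (ys n) n (fun v => c (Main (ys n) n v)) :=
    fun n => rfl
  have hst : ∀ n j, j < n → ys n j = ys (j + 1) j := by
    intro n
    induction n with
    | zero => intro j hj; omega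
    | succ n ih =>
      intro j hj
      by_cases hjn : j = n
      · subst hjn; rfl
      · rw [hys n, Function.update_of_ne hjn]
        exact ih j (by omega)
  refine ⟨fun n => ys (n + 1) n, fun n v => ?_⟩
  have h1 : Main (fun n => ys (n + 1) n) n v = Main (ys n) n v :=
    Main_congr (fun j hj => (hst n j hj).symm) v
  rw [h1]
  show (ys (n + 1) n) v = _
  rw [hys n]
  simp

theorem mem_Bs_graph {b : Set (K A → ℝ)} (hb : b ∈ Bs A) {y : Y A} (hy : p y ∈ b) :
    ∃ n, ∃ v ∈ V y n, b = Main y n v := by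
  rcases hb with ⟨y', n, v, rfl⟩ | ⟨-, h⟩
  · have h1 : ∀ j < n, y j = y' j := fun j hj => eq_of_p_δ (hy.1 j hj)
    exact ⟨n, v, mem_V_of_p hy.2.2, Main_congr (fun j hj => (h1 j hj).symm) v⟩
  · exact absurd hy (h y)

theorem V_color {y : Y A} {n : ℕ} {v : Finset (L A n)} (hv : v ∈ V y n) :
    y n v = ii y n := by
  obtain ⟨h2, h3⟩ := hv
  by_cases h : Cof n (y n)
  · rw [h2 h]; simp [ii, h]
  · rw [uu_spec h (h3 h).1]; simp [ii, h]

theorem mem_of_subset {y : Y A} {n : ℕ} {v : Finset (L A n)} (hv : v ∈ V y n) {ξ : K A}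
    (h : ∀ q ∈ Main y n v, |q ξ - p y ξ| < 1) :
    (∃ j < n, ξ = Sum.inr ⟨j, Sum.inr (δ (y j))⟩) ∨ (∃ c ∈ v, emb n c = ξ) ∨
      ξ = Sum.inr ⟨n, Sum.inl v⟩ := by
  classical
  by_contra hcon
  push Not at hcon
  obtain ⟨h1, h2, h3⟩ := hcon
  have hp := p_mem_Main hv
  have hm : Function.update (p y) ξ (p y ξ + 1) ∈ Main y n v := by
    refine ⟨fun j hj => ?_, fun c hc => ?_, ?_⟩
    · rw [Function.update_of_ne (h1 j hj).symm]; exact hp.1 j hj
    · rw [Function.update_of_ne (h2 c hc)]; exact hp.2.1 c hc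
    · rw [Function.update_of_ne (Ne.symm h3)]; exact hp.2.2
  have := h _ hm
  simp at this

theorem not_resolvable [Uncountable A] : ¬ ∃ B₀ B₁ : Set (Set (K A → ℝ)),
    B₀ ∪ B₁ = Bs A ∧ B₀ ∩ B₁ = ∅ ∧ IsTopologicalBasis B₀ ∧ IsTopologicalBasis B₁ := by
  classical
  rintro ⟨B₀, B₁, hU, hD, hB0, hB1⟩
  obtain ⟨y, hy⟩ := exists_play (A := A) (fun b => decide (b ∈ B₁))
  have hcol : ∀ n, ∀ v ∈ V y n, decide (Main y n v ∈ B₁) = ii y n := fun n v hv =>
    (hy n v).symm.trans (V_color hv)
  have hB0s : B₀ ⊆ Bs A := hU ▸ subset_union_left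
  have hB1s : B₁ ⊆ Bs A := hU ▸ subset_union_right
  by_cases hA : ∀ n, ∃ j ≥ n, ii y j = false
  · -- the second family fails
    have hcount : {a : A | ∃ n, ∃ c ∈ uu n (y n), emb n c = Sum.inl (ii y, a)}.Countable := by
      have : {a : A | ∃ n, ∃ c ∈ uu n (y n), emb n c = Sum.inl (ii y, a)} =
          ⋃ n, {a : A | ∃ c ∈ uu n (y n), emb n c = Sum.inl (ii y, a)} := by
        ext a; simp
      rw [this]
      refine countable_iUnion fun n => Set.Finite.countable ?_
      have hinj : Function.Injective (fun a : A => (Sum.inl (ii y, a) : K A)) := by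
        intro a b hab
        exact (Prod.mk.inj (Sum.inl_injective hab)).2
      have hfin := ((uu n (y n)).image (emb n)).finite_toSet.preimage
        (f := fun a : A => (Sum.inl (ii y, a) : K A)) hinj.injOn
      refine hfin.subset fun a ha => ?_
      obtain ⟨c, hc1, hc2⟩ := ha
      simp only [mem_preimage, Finset.coe_image, mem_image]
      exact ⟨c, hc1, hc2⟩
    obtain ⟨a, ha⟩ : ∃ a : A,
        a ∉ {a : A | ∃ n, ∃ c ∈ uu n (y n), emb n c = Sum.inl (ii y, a)} := by
      by_contra hcon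
      push Not at hcon
      have : (univ : Set A) ⊆ {a : A | ∃ n, ∃ c ∈ uu n (y n), emb n c = Sum.inl (ii y, a)} :=
        fun a _ => hcon a
      exact not_countable_univ (hcount.mono this)
    set ξ : K A := Sum.inl (ii y, a) with hξ
    obtain ⟨b, hb, hyb, hbq⟩ := hB1.exists_subset_of_mem_open
      (show p y ∈ {q : K A → ℝ | |q ξ - p y ξ| < 1} by simp) (isOpen_coord ξ _ _)
    obtain ⟨n, v, hv, rfl⟩ := mem_Bs_graph (hB1s hb) hyb
    have hi : ii y n = true := by rw [← hcol n v hv]; exact decide_eq_true hb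
    have hc : ¬ Cof n (y n) := by simpa [ii] using hi
    rcases mem_of_subset hv (fun q hq => hbq hq) with ⟨j, -, hj⟩ | ⟨c, hc1, hc2⟩ | h3
    · simp at hj
    · have hR : emb n c ∈ R y n := ⟨ii y, a, hc2, hA, fun j _ => rfl⟩
      obtain ⟨c', hc', he⟩ := (hv.2 hc).2 c hc1 hR
      exact ha ⟨n, c', hc', he.trans hc2⟩
    · simp at h3
  · push Not at hA
    obtain ⟨n0, h0⟩ := hA
    obtain ⟨ξ, hξ⟩ : ∃ ξ : K A, ξ = Sum.inr ⟨n0, Sum.inr fun _ => 0⟩ := ⟨_, rfl⟩
    have hlev : lev ξ = n0 + 1 := by rw [hξ]; rfl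
    obtain ⟨b, hb, hyb, hbq⟩ := hB0.exists_subset_of_mem_open
      (show p y ∈ {q : K A → ℝ | |q ξ - p y ξ| < 1} by simp) (isOpen_coord ξ _ _)
    obtain ⟨n, v, hv, rfl⟩ := mem_Bs_graph (hB0s hb) hyb
    have hn : n0 ≤ n := by
      rcases mem_of_subset hv (fun q hq => hbq hq) with ⟨j, hj1, hj⟩ | ⟨c, hc1, hc2⟩ | h3
      · have h5 : lev ξ = j + 1 := by rw [hj]; rfl
        omega
      · have h5 := lev_emb n c
        rw [hc2] at h5
        omega
      · have h5 : lev ξ = n + 1 := by rw [h3]; rfl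
        omega
    have h1 : ii y n = true := by simpa using h0 n hn
    have h2 : Main y n v ∈ B₁ := by
      have := hcol n v hv
      rw [h1] at this
      exact of_decide_eq_true this
    exact absurd (show Main y n v ∈ B₀ ∩ B₁ from ⟨hb, h2⟩) (by rw [hD]; exact notMem_empty _)

theorem not_baseResolvable (hA : Good A) [Uncountable A] : ¬ BaseResolvable (K A → ℝ) :=
  fun h => not_resolvable (h (Bs A) (isBasis_Bs hA))

/-! ### Cardinalities -/

open Cardinal Ordinal

theorem mk_step {X : Type} {o : Ordinal} (h : #X = beth o) :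
    #(Finset X ⊕ ((Finset X → Bool) → ℕ)) = beth (o + 2) := by
  have hX : ℵ₀ ≤ #X := by rw [h]; exact aleph0_le_beth o
  have : Infinite X := Cardinal.infinite_iff.2 hX
  have h1 : #(Finset X) = beth o := by rw [mk_finset_of_infinite, h]
  have h2 : #(Finset X → Bool) = beth (o + 1) := by
    rw [beth_add_one, ← h1]; simp
  have h3 : #((Finset X → Bool) → ℕ) = beth (o + 2) := by
    have h4 : (ℵ₀ : Cardinal.{0}) ^ beth (o + 1) = 2 ^ beth (o + 1) :=
      power_eq_two_power (aleph0_le_beth _) (natCast_lt_aleph0 (n := 2)).le (aleph0_le_beth _)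
    have h5 : o + 2 = o + 1 + 1 := by
      rw [add_assoc, one_add_one_eq_two]
    rw [h5, beth_add_one, ← h4, ← h2]; simp
  have h6 : beth o ≤ beth (o + 2) := beth_le_beth.2 le_self_add
  rw [mk_sum, Cardinal.lift_id, Cardinal.lift_id, h1, h3, add_eq_right (aleph0_le_beth _) h6]

theorem mk_L (n : ℕ) : #(L (ℕ → Bool) n) = beth ((2 * n + 1 : ℕ) : Ordinal) := by
  induction n with
  | zero =>
    have h : #((ℕ → Bool) × (ℕ → Bool)) = beth 1 := by
      rw [beth_one]; simp
    have h2 : ((2 * 0 + 1 : ℕ) : Ordinal) = 1 := by simp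
    rw [h2]
    exact h
  | succ n ih =>
    have h1 := mk_step ih
    have h2 : ((2 * n + 1 : ℕ) : Ordinal) + 2 = ((2 * (n + 1) + 1 : ℕ) : Ordinal) := by
      rw [show 2 * (n + 1) + 1 = 2 * n + 1 + 2 by ring]
      push_cast; rfl
    rw [h2] at h1
    show #(L (ℕ → Bool) n ⊕ (Finset (L (ℕ → Bool) n) ⊕
      ((Finset (L (ℕ → Bool) n) → Bool) → ℕ))) = _
    rw [mk_sum, Cardinal.lift_id, Cardinal.lift_id, h1, ih]
    refine add_eq_right (aleph0_le_beth _) (beth_le_beth.2 ?_)
    exact_mod_cast (by omega : 2 * n + 1 ≤ 2 * (n + 1) + 1)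

theorem mk_K : #(K (ℕ → Bool)) = beth ω := by
  apply le_antisymm
  · have h0 : ∀ n : ℕ, beth (n : Ordinal) ≤ beth ω :=
      fun n => beth_le_beth.2 (natCast_lt_omega0 n).le
    have h1 : #((ℕ → Bool) × (ℕ → Bool)) ≤ beth ω := by
      have := mk_L 0
      have h2 : #((ℕ → Bool) × (ℕ → Bool)) = beth ((2 * 0 + 1 : ℕ) : Ordinal) := this
      rw [h2]; exact h0 _
    have h2 : #(Σ n, (Finset (L (ℕ → Bool) n) ⊕ (D (ℕ → Bool) n → ℕ))) ≤ beth ω := by
      rw [mk_sigma]
      refine (sum_le_mk_mul_iSup _).trans ?_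
      refine mul_le_of_le (aleph0_le_beth _) (mk_nat ▸ aleph0_le_beth _) (ciSup_le' fun n => ?_)
      rw [mk_step (mk_L n)]
      have h3 : ((2 * n + 1 : ℕ) : Ordinal) + 2 = ((2 * n + 1 + 2 : ℕ) : Ordinal) := by
        push_cast; rfl
      rw [h3]; exact h0 _
    rw [mk_sum, Cardinal.lift_id, Cardinal.lift_id]
    exact add_le_of_le (aleph0_le_beth _) h1 h2
  · rw [beth_limit isSuccLimit_omega0]
    refine ciSup_le' ?_
    rintro ⟨a, ha⟩
    obtain ⟨n, rfl⟩ := lt_omega0.1 ha
    have h1 : beth ((2 * n + 1 : ℕ) : Ordinal) ≤ #(K (ℕ → Bool)) := by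
      have : Infinite (L (ℕ → Bool) n) := by
        rw [Cardinal.infinite_iff, mk_L n]; exact aleph0_le_beth _
      rw [← mk_L n, ← mk_finset_of_infinite (L (ℕ → Bool) n)]
      refine mk_le_of_injective (f := fun v => (Sum.inr ⟨n, Sum.inl v⟩ : K (ℕ → Bool))) ?_
      intro v w h
      simpa using h
    refine le_trans (beth_le_beth.2 ?_) h1
    have h2 : (n : Ordinal) ≤ ((2 * n + 1 : ℕ) : Ordinal) :=
      Nat.cast_le.2 (by omega : n ≤ 2 * n + 1)
    exact h2

theorem good_seq : Good (ℕ → Bool) := good_nat.pi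

instance : Uncountable (ℕ → Bool) := by
  rw [← Cardinal.aleph0_lt_mk_iff]
  simpa using Cardinal.aleph0_lt_continuum

theorem denseInItself_power {X : Type} [Nonempty X] : DenseInItself (X → ℝ) := by
  classical
  intro x hx
  obtain ⟨i⟩ := ‹Nonempty X›
  have h1 : IsOpen ((fun t : ℝ => Function.update x i t) ⁻¹' {x}) :=
    hx.preimage (by fun_prop)
  have h2 : (fun t : ℝ => Function.update x i t) ⁻¹' {x} = {x i} := by
    ext t
    simp only [mem_preimage, mem_singleton_iff]
    constructor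
    · intro h
      have := congrFun h i
      simpa using this
    · rintro rfl
      exact Function.update_eq_self i x
  rw [h2] at h1
  exact not_isOpen_singleton (x i) h1

/-- The space `ℝ^κ` is not base resolvable for `κ = ℶ_ω`. -/
theorem result :
    ∃ K : Type, #K = beth ω ∧ DenseInItself (K → ℝ) ∧ ¬ BaseResolvable (K → ℝ) :=
  ⟨K (ℕ → Bool), mk_K, denseInItself_power, not_baseResolvable good_seq⟩

end Pool.Agent.Results.MP_155eb7_gt.PowersOfTheLine
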